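import Pool.Agent.R225.NR.Gap
import Pool.Agent.R225.NM.Exist

set_option autoImplicit false

/-!
# The ratio of the Neumann eigenvalues with only the inner domain convex
-/

namespace Pool.Agent.R225.NR

open MeasureTheory Set WithLp Filter Topology
open scoped Real RealInnerProductSpace
open Pool.Agent.R225.NM

/-- `C̃_{k,d}`: the infimum of `μ_k(Ω₁) / μ_k(Ω₂)` over the bounded Lipschitz domains `Ω₁ ⊆ Ω₂` in
the Euclidean space of dimension `d` with `Ω₁` convex. -/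
noncomputable def ratioConst (k d : ℕ) : ℝ :=
  sInf {r : ℝ | ∃ Ω₁ Ω₂ : Set (EuclideanSpace ℝ (Fin d)), IsLipschitzDomain Ω₁ ∧
    IsLipschitzDomain Ω₂ ∧ Convex ℝ Ω₁ ∧ Ω₁ ⊆ Ω₂ ∧
    r = neumannEigenvalue Ω₁ k / neumannEigenvalue Ω₂ k}

theorem pair2 (k : ℕ) (hk : 1 ≤ k) {a : ℝ} (ha : 0 < a) :
    ∃ Ω₁ Ω₂ : Set (EuclideanSpace ℝ (Fin 2)), IsLipschitzDomain Ω₁ ∧ IsLipschitzDomain Ω₂ ∧
      Convex ℝ Ω₁ ∧ Ω₁ ⊆ Ω₂ ∧ neumannEigenvalue Ω₁ k ≤ (π * k / (2 * a)) ^ 2 ∧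
      1 / 9 ≤ neumannEigenvalue Ω₂ k := by
  set D : ℝ := 2 * a with hD
  have hD0 : 0 ≤ D := by positivity
  set δ : ℝ := Real.exp (-D) with hδ
  have hδ1 : δ < 1 := by
    rw [hδ, Real.exp_lt_one_iff]
    rw [hD]; linarith
  set b : ℝ := Real.exp (-a) - δ with hb
  have hb0 : 0 < b := by
    rw [hb, sub_pos, hδ, Real.exp_lt_exp]
    rw [hD]; linarith
  have hsub : Rect a b ⊆ Horn δ := rect_subset (by rw [hb]; linarith)
  have h1 := rect_upper ha hb0 k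
  have hrd := rect_domain ha hb0
  have hhd := horn_domain hδ.symm hδ1
  refine ⟨Rect a b, Horn δ, hrd, hhd, rect_convex a b, hsub,
    mu_le hrd.isOpen hrd.isBounded h1, ?_⟩
  have hne : ({M : ℝ | RayleighBound (Horn δ) k M}).Nonempty := by
    obtain ⟨g, hg, hLI, _⟩ := h1
    exact exists_bound hhd.isOpen hhd.isBounded hg (LI_mono hsub hLI)
  exact le_csInf hne fun M hM => horn_lower hD0 hδ.symm hk hM

theorem pair2_eps (k : ℕ) (hk : 1 ≤ k) {ε : ℝ} (hε : 0 < ε) :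
    ∃ Ω₁ Ω₂ : Set (EuclideanSpace ℝ (Fin 2)), IsLipschitzDomain Ω₁ ∧ IsLipschitzDomain Ω₂ ∧
      Convex ℝ Ω₁ ∧ Ω₁ ⊆ Ω₂ ∧ neumannEigenvalue Ω₁ k ≤ ε ∧
      1 / 9 ≤ neumannEigenvalue Ω₂ k := by
  have h1 : Tendsto (fun a : ℝ => (π * k / (2 * a)) ^ 2) atTop (𝓝 0) := by
    have h2 : Tendsto (fun a : ℝ => π * k / (2 * a)) atTop (𝓝 0) :=
      tendsto_const_nhds.div_atTop (tendsto_id.const_mul_atTop (by norm_num))
    have h3 := h2.pow 2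
    simpa using h3
  have h2 := (h1.eventually (gt_mem_nhds hε)).and (eventually_gt_atTop 0)
  obtain ⟨a, ha1, ha2⟩ := h2.exists
  obtain ⟨Ω₁, Ω₂, h4, h5, h6, h7, h8, h9⟩ := pair2 k hk ha2
  exact ⟨Ω₁, Ω₂, h4, h5, h6, h7, h8.trans ha1.le, h9⟩

theorem ratio_zero (k : ℕ) (hk : 1 ≤ k) : ratioConst k 2 = 0 := by
  have hnn : ∀ r ∈ {r : ℝ | ∃ Ω₁ Ω₂ : Set (EuclideanSpace ℝ (Fin 2)), IsLipschitzDomain Ω₁ ∧
      IsLipschitzDomain Ω₂ ∧ Convex ℝ Ω₁ ∧ Ω₁ ⊆ Ω₂ ∧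
      r = neumannEigenvalue Ω₁ k / neumannEigenvalue Ω₂ k}, 0 ≤ r := by
    rintro r ⟨Ω₁, Ω₂, h1, h2, _, _, rfl⟩
    exact div_nonneg (mu_nonneg h1.isOpen h1.isBounded) (mu_nonneg h2.isOpen h2.isBounded)
  refine le_antisymm ?_ (Real.sInf_nonneg hnn)
  refine le_of_forall_pos_le_add fun ε hε => ?_
  obtain ⟨Ω₁, Ω₂, h1, h2, h3, h4, h5, h6⟩ := pair2_eps k hk (ε := ε / 9) (by positivity)
  refine (csInf_le ⟨0, hnn⟩ ⟨_, _, h1, h2, h3, h4, rfl⟩).trans ?_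
  have hpos : 0 < neumannEigenvalue Ω₂ k := (by norm_num : (0:ℝ) < 1 / 9).trans_le h6
  rw [zero_add, div_le_iff₀ hpos]
  nlinarith

end Pool.Agent.R225.NR
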