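import Pool.Agent.R225.NR.Horn

set_option autoImplicit false

/-!
# The spectral gap of the horn
-/

namespace Pool.Agent.R225.NR

open MeasureTheory Set WithLp Filter Topology
open scoped Real RealInnerProductSpace
open Pool.Agent.R225.NM

/-- integration over the horn, in coordinates -/
theorem horn_int {δ D : ℝ} (hD : 0 ≤ D) (hδ : Real.exp (-D) = δ) {G : (Fin 2 → ℝ) → ℝ}
    (hG : Continuous G) :
    ∫ p in (fun x : Fin 2 → ℝ => (toLp 2 x : EuclideanSpace ℝ (Fin 2))) ⁻¹' (Horn δ), G p =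
      2 * (∫ x in (0:ℝ)..D, (Real.exp (-x) - δ) *
        ∫ s in Icc (0:ℝ) (0 + 1), G ![x, (2 * s - 1) * (Real.exp (-x) - δ)]) +
      2 * ∫ x in (0:ℝ)..D, (Real.exp (-x) - δ) *
        ∫ s in Icc (0:ℝ) (0 + 1), G ![-x, (2 * s - 1) * (Real.exp (-x) - δ)] := by
  have hδ0 : 0 < δ := hδ ▸ Real.exp_pos _
  set S : Set (ℝ × ℝ) := {w | |w.2| + δ < Real.exp (-|w.1|)} with hS
  have hSo : IsOpen S := by
    have h0 : Continuous fun p : ℝ × ℝ => |p.2| + δ := by fun_prop
    have h1 : Continuous fun p : ℝ × ℝ => Real.exp (-|p.1|) := by fun_prop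
    exact isOpen_lt h0 h1
  have cpt : Continuous fun w : ℝ × ℝ => ![w.1, w.2] := by fun_prop
  set H : ℝ × ℝ → ℝ := fun w => G ![w.1, w.2] with hH
  have cH : Continuous H := hG.comp cpt
  -- to the product
  have h1 := ((volume_preserving_finTwoArrow ℝ).symm).setIntegral_preimage_emb
    (MeasurableEquiv.finTwoArrow (α := ℝ)).symm.measurableEmbedding G
    ((fun x : Fin 2 → ℝ => (toLp 2 x : EuclideanSpace ℝ (Fin 2))) ⁻¹' (Horn δ))
  have h2 : (MeasurableEquiv.finTwoArrow (α := ℝ)).symm ⁻¹'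
      ((fun x : Fin 2 → ℝ => (toLp 2 x : EuclideanSpace ℝ (Fin 2))) ⁻¹' (Horn δ)) = S := by
    ext w
    rfl
  have h3 : ∀ w, G ((MeasurableEquiv.finTwoArrow (α := ℝ)).symm w) = H w := by
    intro w
    simp only [hH]
    congr 1
  rw [← h1, h2]
  simp only [h3]
  -- Fubini
  have hSb : S ⊆ Icc (-D) D ×ˢ Icc (-1) 1 := by
    rintro ⟨x, y⟩ hw
    obtain ⟨h4, h5⟩ := horn_coord hδ hw
    exact ⟨abs_le.1 h4.le, abs_le.1 h5.le⟩
  have hHi : IntegrableOn H S (volume.prod volume) := by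
    have h4 : IntegrableOn H (Icc (-D) D ×ˢ Icc (-1) 1) (volume.prod volume) :=
      cH.continuousOn.integrableOn_compact (isCompact_Icc.prod isCompact_Icc)
    exact h4.mono_set hSb
  have h4 : ∫ w in S, H w = ∫ x, ∫ y, S.indicator H (x, y) := by
    rw [← integral_indicator hSo.measurableSet]
    exact integral_prod _ ((integrable_indicator_iff hSo.measurableSet).2 hHi)
  rw [h4]
  set g : ℝ → ℝ := fun x => Real.exp (-|x|) - δ with hg
  have cg : Continuous g := by fun_prop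
  set J : ℝ → ℝ := fun x => 2 * g x * ∫ s in Icc (0:ℝ) (0 + 1), H (x, (2 * s - 1) * g x) with hJ
  have cJ : Continuous J := by
    have h5 : Continuous fun x => ∫ s in Icc (0:ℝ) (0 + 1), H (x, (2 * s - 1) * g x) :=
      continuous_parametric_integral_of_continuous
        (f := fun x s => H (x, (2 * s - 1) * g x)) (by
          have : Continuous fun z : ℝ × ℝ => H (z.1, (2 * z.2 - 1) * g z.1) := by fun_prop
          exact this) isCompact_Icc
    exact (continuous_const.mul cg).mul h5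
  have h5 : ∀ x, ∫ y, S.indicator H (x, y) = ∫ y in Ioo (-g x) (g x), H (x, y) := by
    intro x
    rw [← integral_indicator measurableSet_Ioo]
    congr 1
    funext y
    have h6 : (x, y) ∈ S ↔ y ∈ Ioo (-g x) (g x) := by
      show |y| + δ < Real.exp (-|x|) ↔ -g x < y ∧ y < g x
      rw [← abs_lt]
      simp only [hg]
      constructor <;> intro h <;> linarith
    by_cases h7 : (x, y) ∈ S
    · rw [indicator_of_mem h7, indicator_of_mem (h6.1 h7)]
    · rw [indicator_of_notMem h7, indicator_of_notMem fun h => h7 (h6.2 h)]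
  simp only [h5]
  have hgn : ∀ x, x ∉ Ioc (-D) D → g x ≤ 0 := by
    intro x hx
    have h6 : D ≤ |x| := by
      by_contra h
      push Not at h
      obtain ⟨h7, h8⟩ := abs_lt.1 h
      exact hx ⟨h7, h8.le⟩
    simp only [hg]
    rw [← hδ, sub_nonpos]
    exact Real.exp_le_exp.2 (by linarith)
  have hgp : ∀ x, x ∈ Ioc (-D) D → 0 ≤ g x := by
    intro x hx
    have h6 : |x| ≤ D := abs_le.2 ⟨hx.1.le, hx.2⟩
    simp only [hg]
    rw [← hδ, sub_nonneg]
    exact Real.exp_le_exp.2 (by linarith)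
  rw [← setIntegral_eq_integral_of_forall_compl_eq_zero (s := Ioc (-D) D) (fun x hx => by
    rw [Ioo_eq_empty (by linarith [hgn x hx]), Measure.restrict_empty, integral_zero_measure])]
  have h6 : ∫ x in Ioc (-D) D, ∫ y in Ioo (-g x) (g x), H (x, y) = ∫ x in Ioc (-D) D, J x := by
    refine setIntegral_congr_fun measurableSet_Ioc fun x hx => ?_
    have h7 := hgp x hx
    have h8 := intervalIntegral.mul_integral_comp_mul_sub (a := 0) (b := 1)
      (f := fun y => H (x, y)) (2 * g x) (g x)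
    have e1 : 2 * g x * 0 - g x = -g x := by ring
    have e2 : 2 * g x * 1 - g x = g x := by ring
    rw [e1, e2, intervalIntegral.integral_of_le (by linarith : -g x ≤ g x),
      intervalIntegral.integral_of_le zero_le_one] at h8
    show ∫ y in Ioo (-g x) (g x), H (x, y) = J x
    rw [← integral_Ioc_eq_integral_Ioo, ← h8]
    simp only [hJ]
    rw [zero_add, integral_Icc_eq_integral_Ioc]
    congr 1
    refine setIntegral_congr_fun measurableSet_Ioc fun s _ => ?_
    show H (x, 2 * g x * s - g x) = H (x, (2 * s - 1) * g x)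
    congr 2
    ring
  rw [h6, ← intervalIntegral.integral_of_le (by linarith : -D ≤ D),
    ← intervalIntegral.integral_add_adjacent_intervals (a := -D) (b := 0) (c := D)
      (cJ.intervalIntegrable _ _) (cJ.intervalIntegrable _ _), add_comm]
  congr 1
  · rw [← intervalIntegral.integral_const_mul]
    refine intervalIntegral.integral_congr fun x hx => ?_
    rw [uIcc_of_le hD] at hx
    simp only [hJ, hH, hg, abs_of_nonneg hx.1]
    ring
  · have h7 := intervalIntegral.integral_comp_neg (a := 0) (b := D) J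
    rw [neg_zero] at h7
    rw [← h7, ← intervalIntegral.integral_const_mul]
    refine intervalIntegral.integral_congr fun x hx => ?_
    rw [uIcc_of_le hD] at hx
    simp only [hJ, hH, hg, abs_neg, abs_of_nonneg hx.1]
    ring

/-- the chain rule -/
theorem chain {V : (Fin 2 → ℝ) → ℝ} (hV : ContDiff ℝ 1 V) (γ η : ℝ → ℝ) (γ' η' s : ℝ)
    (hγ : HasDerivAt γ γ' s) (hη : HasDerivAt η η' s) :
    HasDerivAt (fun s => V ![γ s, η s])
      (pd V 0 ![γ s, η s] * γ' + pd V 1 ![γ s, η s] * η') s := by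
  have h1 : HasDerivAt (fun s => (![γ s, η s] : Fin 2 → ℝ)) (![γ', η'] : Fin 2 → ℝ) s := by
    rw [hasDerivAt_pi]
    intro i
    fin_cases i
    · exact hγ
    · exact hη
  have h2 : HasFDerivAt V (fderiv ℝ V ![γ s, η s]) ![γ s, η s] :=
    (hV.differentiable one_ne_zero _).hasFDerivAt
  have h3 := h2.comp_hasDerivAt s h1
  have h4 : fderiv ℝ V ![γ s, η s] ![γ', η'] =
      pd V 0 ![γ s, η s] * γ' + pd V 1 ![γ s, η s] * η' := by
    have h5 : (![γ', η'] : Fin 2 → ℝ) = γ' • Pi.single 0 (1:ℝ) + η' • Pi.single 1 (1:ℝ) := by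
      funext i
      fin_cases i <;> simp
    rw [h5, map_add, map_smul, map_smul]
    simp only [pd, smul_eq_mul]
    ring
  rw [h4] at h3
  exact h3

/-- the eigenvalues of the horn -/
theorem horn_lower {δ D : ℝ} (hD : 0 ≤ D) (hδ : Real.exp (-D) = δ) {k : ℕ}
    (hk : 1 ≤ k) {M : ℝ} (h : RayleighBound (Horn δ) k M) : 1 / 9 ≤ M := by
  obtain ⟨g, hg, hLI, hM⟩ := h
  have cgi : ∀ j, Continuous fun x : Fin 2 → ℝ => g j (toLp 2 x) := fun j =>
    ((hg j).comp toLp_contDiff).continuous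
  let T : (Fin (k + 1) → ℝ) →ₗ[ℝ] (Fin 1 → ℝ) :=
    LinearMap.pi fun _ => ∑ j, (∫ s in Icc (0:ℝ) (0 + 1),
      g j (toLp 2 ![0, (2 * s - 1) * (1 - δ)])) •
      (LinearMap.proj j : (Fin (k + 1) → ℝ) →ₗ[ℝ] ℝ)
  have hT : LinearMap.ker T ≠ ⊥ := LinearMap.ker_ne_bot_of_finrank_lt (by simp; omega)
  obtain ⟨c, hcT, hc0⟩ := Submodule.exists_mem_ne_zero_of_ne_bot hT
  set V : (Fin 2 → ℝ) → ℝ := fun x => (∑ i, c i • g i) (toLp 2 x) with hV
  have cV : ContDiff ℝ 1 V := (combo_contDiff c hg).comp toLp_contDiff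
  have hmean : ∫ s in Icc (0:ℝ) (0 + 1), V ![0, (2 * s - 1) * (1 - δ)] = 0 := by
    have h1 := congrFun (LinearMap.mem_ker.1 hcT) 0
    simp only [T, LinearMap.pi_apply, LinearMap.sum_apply, LinearMap.smul_apply,
      LinearMap.proj_apply, smul_eq_mul, Pi.zero_apply] at h1
    rw [hV]
    simp only [combo_apply]
    have hint : ∀ j, IntegrableOn (fun s : ℝ => g j (toLp 2 ![0, (2 * s - 1) * (1 - δ)]))
        (Icc (0:ℝ) (0 + 1)) := fun j => by
      have : Continuous fun s : ℝ => g j (toLp 2 ![0, (2 * s - 1) * (1 - δ)]) :=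
        (cgi j).comp (by fun_prop)
      exact this.integrableOn_Icc
    rw [integral_finsetSum _ fun j _ => (hint j).const_mul _]
    refine Eq.trans ?_ h1
    refine Finset.sum_congr rfl fun j _ => ?_
    rw [integral_const_mul, mul_comm]
  have cpt : Continuous fun z : ℝ × ℝ => ![z.1, z.2] := by fun_prop
  have cptn : Continuous fun z : ℝ × ℝ => ![-z.1, z.2] := by fun_prop
  have c0 : Continuous (pd V 0) := pd_continuous cV 0
  have c1 : Continuous (pd V 1) := pd_continuous cV 1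
  -- the right half
  have r1 := half hD hδ (u := fun x y => V ![x, y]) (ux := fun x y => pd V 0 ![x, y])
    (uy := fun x y => pd V 1 ![x, y]) (cV.continuous.comp cpt) (c0.comp cpt) (c1.comp cpt)
    (fun γ η γ' η' s hγ hη => chain cV γ η γ' η' s hγ hη) hmean
  -- the left half
  have r2 := half hD hδ (u := fun x y => V ![-x, y]) (ux := fun x y => -pd V 0 ![-x, y])
    (uy := fun x y => pd V 1 ![-x, y]) (cV.continuous.comp cptn) (c0.comp cptn).neg
    (c1.comp cptn)
    (fun γ η γ' η' s hγ hη => by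
      have h1 := chain cV (fun s => -γ s) η (-γ') η' s hγ.neg hη
      refine h1.congr_deriv ?_
      ring) (by
      refine Eq.trans ?_ hmean
      simp only [neg_zero])
  simp only [neg_sq] at r2
  have e1 : ∫ x in Horn δ, (∑ i, c i • g i) x ^ 2 =
      2 * (∫ x in (0:ℝ)..D, (Real.exp (-x) - δ) *
        ∫ s in Icc (0:ℝ) (0 + 1), V ![x, (2 * s - 1) * (Real.exp (-x) - δ)] ^ 2) +
      2 * ∫ x in (0:ℝ)..D, (Real.exp (-x) - δ) *
        ∫ s in Icc (0:ℝ) (0 + 1), V ![-x, (2 * s - 1) * (Real.exp (-x) - δ)] ^ 2 := by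
    rw [← setInt (Horn δ)]
    exact horn_int hD hδ (G := fun x => V x ^ 2) (cV.continuous.pow 2)
  have e2 : ∫ x in Horn δ, ‖fderiv ℝ (∑ i, c i • g i) x‖ ^ 2 =
      2 * (∫ x in (0:ℝ)..D, (Real.exp (-x) - δ) *
        ∫ s in Icc (0:ℝ) (0 + 1), (pd V 0 ![x, (2 * s - 1) * (Real.exp (-x) - δ)] ^ 2 +
          pd V 1 ![x, (2 * s - 1) * (Real.exp (-x) - δ)] ^ 2)) +
      2 * ∫ x in (0:ℝ)..D, (Real.exp (-x) - δ) *
        ∫ s in Icc (0:ℝ) (0 + 1), (pd V 0 ![-x, (2 * s - 1) * (Real.exp (-x) - δ)] ^ 2 +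
          pd V 1 ![-x, (2 * s - 1) * (Real.exp (-x) - δ)] ^ 2) := by
    rw [← setInt (Horn δ) (fun x => ‖fderiv ℝ (∑ i, c i • g i) x‖ ^ 2)]
    simp only [norm_fderiv_sq _ (combo_contDiff c hg), Fin.sum_univ_two]
    exact horn_int hD hδ (G := fun x => pd V 0 x ^ 2 + pd V 1 x ^ 2)
      ((c0.pow 2).add (c1.pow 2))
  obtain ⟨x, hx, hne⟩ := nonzero_of_LI hLI hc0
  have hpos := cont_sq_pos (horn_open δ) (horn_bounded hδ) (combo_contDiff c hg).continuous hx hne
  have h1 := hM c
  have h2 : ∫ x in Horn δ, (∑ i, c i • g i) x ^ 2 ≤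
      9 * ∫ x in Horn δ, ‖fderiv ℝ (∑ i, c i • g i) x‖ ^ 2 := by
    rw [e1, e2]
    linarith
  have h3 : (1 / 9) * ∫ x in Horn δ, (∑ i, c i • g i) x ^ 2 ≤
      M * ∫ x in Horn δ, (∑ i, c i • g i) x ^ 2 := by linarith
  exact le_of_mul_le_mul_right h3 hpos

/-- the rectangle inside the horn -/
theorem rect_subset {δ : ℝ} {a b : ℝ} (hb : b + δ ≤ Real.exp (-a)) :
    Rect a b ⊆ Horn δ := by
  rintro p ⟨h0, h1⟩
  show |p 1| + δ < Real.exp (-|p 0|)
  have : Real.exp (-a) ≤ Real.exp (-|p 0|) := Real.exp_le_exp.2 (by linarith)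
  linarith

/-- the eigenvalues of the rectangle -/
theorem rect_upper {a b : ℝ} (ha : 0 < a) (hb : 0 < b) (k : ℕ) :
    RayleighBound (Rect a b) k ((π * k / (2 * a)) ^ 2) := by
  have hpos : ∀ i, 0 < (![2 * a, 2 * b] : Fin 2 → ℝ) i := by
    intro i
    fin_cases i
    · show 0 < 2 * a; linarith
    · show 0 < 2 * b; linarith
  set m : Fin (k + 1) → Fin 2 → ℕ := fun j => ![(j : ℕ), 0] with hm
  have hinj : Function.Injective m := by
    intro j j' h
    have h0 := congrFun h 0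
    exact Fin.ext h0
  have h1 : RayleighBound (Box ![2 * a, 2 * b]) k ((π * k / (2 * a)) ^ 2) := by
    refine RB_box hpos m hinj fun j => ?_
    rw [Fin.sum_univ_two]
    have e1 : (π * (m j 1 : ℕ) / (![2 * a, 2 * b] : Fin 2 → ℝ) 1) ^ 2 = 0 := by
      simp [hm]
    have e0 : π * (m j 0 : ℕ) / (![2 * a, 2 * b] : Fin 2 → ℝ) 0 = π * (j : ℕ) / (2 * a) := by
      simp [hm]
    rw [e1, e0, add_zero]
    have hj : ((j : ℕ) : ℝ) ≤ k := by exact_mod_cast Nat.lt_succ_iff.1 j.2
    have hπ := Real.pi_pos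
    refine pow_le_pow_left₀ (by positivity) ?_ 2
    gcongr
  have h2 := RB_image (LinearIsometryEquiv.refl ℝ (EuclideanSpace ℝ (Fin 2))) (pt (-a) (-b)) h1
  have h3 : (fun x => (LinearIsometryEquiv.refl ℝ (EuclideanSpace ℝ (Fin 2))) x +
      pt (-a) (-b)) '' Box ![2 * a, 2 * b] = Rect a b := by
    ext p
    constructor
    · rintro ⟨x, hx, rfl⟩
      have h4 := hx 0
      have h5 := hx 1
      have h4' : 0 < x 0 ∧ x 0 < 2 * a := h4
      have h5' : 0 < x 1 ∧ x 1 < 2 * b := h5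
      refine ⟨?_, ?_⟩
      · show |x 0 + -a| < a
        rw [abs_lt]
        constructor <;> linarith
      · show |x 1 + -b| < b
        rw [abs_lt]
        constructor <;> linarith
    · rintro ⟨h4, h5⟩
      rw [abs_lt] at h4 h5
      refine ⟨p + pt a b, fun i => ?_, ?_⟩
      · fin_cases i
        · show 0 < p 0 + a ∧ p 0 + a < 2 * a
          constructor <;> linarith
        · show 0 < p 1 + b ∧ p 1 + b < 2 * b
          constructor <;> linarith
      · ext i
        fin_cases i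
        · show p 0 + a + -a = p 0
          ring
        · show p 1 + b + -b = p 1
          ring
  rw [h3] at h2
  exact h2

end Pool.Agent.R225.NR
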