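import Pool.Agent.R225.NM.Poin

set_option autoImplicit false

/-!
# A Poincare inequality on a horn
-/

namespace Pool.Agent.R225.NR

open MeasureTheory Set
open scoped Real

/-- Hardy's inequality with the weight `exp (-x) - δ` on `[0, D]`, where `exp (-D) = δ` -/
theorem hardy {δ D : ℝ} (hD : 0 ≤ D) (hδ : Real.exp (-D) = δ) {W : ℝ → ℝ} (hW : Continuous W) :
    ∫ x in (0:ℝ)..D, (Real.exp (-x) - δ) * (∫ ξ in (0:ℝ)..x, W ξ) ^ 2 ≤
      4 * ∫ x in (0:ℝ)..D, (Real.exp (-x) - δ) * W x ^ 2 := by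
  have hδ0 : 0 < δ := hδ ▸ Real.exp_pos _
  set U : ℝ → ℝ := fun x => ∫ ξ in (0:ℝ)..x, W ξ with hU
  have dU : ∀ x, HasDerivAt U (W x) x := fun x =>
    intervalIntegral.integral_hasDerivAt_right (hW.intervalIntegrable _ _)
      (hW.stronglyMeasurableAtFilter _ _) hW.continuousAt
  have cU : Continuous U := continuous_iff_continuousAt.2 fun x => (dU x).continuousAt
  have h1 : ∫ x in (0:ℝ)..D, (-Real.exp (-x) * U x ^ 2 +
      (Real.exp (-x) - δ) * (2 * U x * W x)) = 0 := by
    have h2 : ∀ x ∈ uIcc 0 D, HasDerivAt (fun x => (Real.exp (-x) - δ) * U x ^ 2)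
        (-Real.exp (-x) * U x ^ 2 + (Real.exp (-x) - δ) * (2 * U x * W x)) x := by
      intro x _
      have h3 : HasDerivAt (fun x : ℝ => Real.exp (-x) - δ) (-Real.exp (-x)) x := by
        have := ((hasDerivAt_neg x).exp).sub_const δ
        simpa using this
      refine (h3.mul ((dU x).pow 2)).congr_deriv ?_
      simp
    rw [intervalIntegral.integral_eq_sub_of_hasDerivAt h2
      (by apply Continuous.intervalIntegrable; fun_prop)]
    have h4 : U 0 = 0 := by simp [hU]
    rw [hδ, h4]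
    ring
  have h5 : ∀ x ∈ Icc 0 D, (Real.exp (-x) - δ) * U x ^ 2 / 2 - 2 * ((Real.exp (-x) - δ) * W x ^ 2) ≤
      -(-Real.exp (-x) * U x ^ 2 + (Real.exp (-x) - δ) * (2 * U x * W x)) := by
    intro x hx
    have h6 : 0 ≤ Real.exp (-x) - δ := by
      rw [← hδ, sub_nonneg]
      exact Real.exp_le_exp.2 (by linarith [hx.2])
    nlinarith [mul_nonneg h6 (sq_nonneg (U x - 2 * W x)), mul_nonneg hδ0.le (sq_nonneg (U x))]
  have j1 : IntervalIntegrable (fun x => (Real.exp (-x) - δ) * U x ^ 2 / 2 -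
      2 * ((Real.exp (-x) - δ) * W x ^ 2)) volume 0 D := by
    apply Continuous.intervalIntegrable; fun_prop
  have j2 : IntervalIntegrable (fun x => -(-Real.exp (-x) * U x ^ 2 +
      (Real.exp (-x) - δ) * (2 * U x * W x))) volume 0 D := by
    apply Continuous.intervalIntegrable; fun_prop
  have h7 := intervalIntegral.integral_mono_on hD j1 j2 h5
  rw [intervalIntegral.integral_neg, h1, neg_zero, intervalIntegral.integral_sub
    (by apply Continuous.intervalIntegrable; fun_prop)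
    (by apply Continuous.intervalIntegrable; fun_prop), intervalIntegral.integral_div,
    intervalIntegral.integral_const_mul] at h7
  linarith

/-- the inequality on one half of the horn -/
theorem half {δ D : ℝ} (hD : 0 ≤ D) (hδ : Real.exp (-D) = δ) {u ux uy : ℝ → ℝ → ℝ}
    (cu : Continuous (Function.uncurry u)) (cx : Continuous (Function.uncurry ux))
    (cy : Continuous (Function.uncurry uy))
    (hd : ∀ (γ η : ℝ → ℝ) (γ' η' s : ℝ), HasDerivAt γ γ' s → HasDerivAt η η' s →
      HasDerivAt (fun s => u (γ s) (η s)) (ux (γ s) (η s) * γ' + uy (γ s) (η s) * η') s)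
    (h0 : ∫ s in Icc (0:ℝ) (0 + 1), u 0 ((2 * s - 1) * (1 - δ)) = 0) :
    ∫ x in (0:ℝ)..D, (Real.exp (-x) - δ) *
        ∫ s in Icc (0:ℝ) (0 + 1), u x ((2 * s - 1) * (Real.exp (-x) - δ)) ^ 2 ≤
      9 * ∫ x in (0:ℝ)..D, (Real.exp (-x) - δ) * ∫ s in Icc (0:ℝ) (0 + 1),
        (ux x ((2 * s - 1) * (Real.exp (-x) - δ)) ^ 2 +
          uy x ((2 * s - 1) * (Real.exp (-x) - δ)) ^ 2) := by
  have hδ0 : 0 < δ := hδ ▸ Real.exp_pos _
  set g : ℝ → ℝ := fun x => Real.exp (-x) - δ with hg
  have cg : Continuous g := by fun_prop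
  have dg : ∀ x, HasDerivAt g (-Real.exp (-x)) x := by
    intro x
    have := ((hasDerivAt_neg x).exp).sub_const δ
    rw [mul_neg_one] at this
    exact this
  -- the pulled back functions
  set F : ℝ → ℝ → ℝ := fun x s => u x ((2 * s - 1) * g x) with hF
  set A : ℝ → ℝ → ℝ := fun x s => ux x ((2 * s - 1) * g x) with hA
  set B : ℝ → ℝ → ℝ := fun x s => uy x ((2 * s - 1) * g x) with hB
  have cmap : Continuous fun z : ℝ × ℝ => (z.1, (2 * z.2 - 1) * g z.1) := by fun_prop
  have cF : Continuous (Function.uncurry F) := cu.comp cmap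
  have cA : Continuous (Function.uncurry A) := cx.comp cmap
  have cB : Continuous (Function.uncurry B) := cy.comp cmap
  -- the derivative along the horn
  set X : ℝ → ℝ → ℝ := fun x s => A x s + B x s * ((2 * s - 1) * (-Real.exp (-x))) with hX
  have cX : Continuous (Function.uncurry X) := by
    have h1 : Continuous fun z : ℝ × ℝ => Function.uncurry A z +
      Function.uncurry B z * ((2 * z.2 - 1) * (-Real.exp (-z.1))) := by fun_prop
    exact h1
  have dF : ∀ x s, HasDerivAt (fun x => F x s) (X x s) x := by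
    intro x s
    have h1 := hd (fun x => x) (fun x => (2 * s - 1) * g x) 1 ((2 * s - 1) * (-Real.exp (-x))) x
      (hasDerivAt_id x) ((dg x).const_mul _)
    rw [mul_one] at h1
    exact h1
  have dFs : ∀ x s, HasDerivAt (fun s => F x s) (B x s * (2 * g x)) s := by
    intro x s
    have h2 : HasDerivAt (fun s : ℝ => (2 * s - 1) * g x) (2 * g x) s := by
      have := (((hasDerivAt_id s).const_mul 2).sub_const 1).mul_const (g x)
      simpa using this
    have h1 := hd (fun _ => x) (fun s => (2 * s - 1) * g x) 0 (2 * g x) s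
      (hasDerivAt_const s x) h2
    rw [mul_zero, zero_add] at h1
    exact h1
  have cFs : ∀ x, Continuous (F x) := fun x => cF.comp (Continuous.prodMk_right x)
  have cAs : ∀ x, Continuous (A x) := fun x => cA.comp (Continuous.prodMk_right x)
  have cBs : ∀ x, Continuous (B x) := fun x => cB.comp (Continuous.prodMk_right x)
  have cXs : ∀ x, Continuous (X x) := fun x => cX.comp (Continuous.prodMk_right x)
  have ii : ∀ {G : ℝ → ℝ}, Continuous G → IntegrableOn G (Icc (0:ℝ) (0 + 1)) := fun hG =>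
    hG.integrableOn_Icc
  -- the means
  set m : ℝ → ℝ := fun x => ∫ s in Icc (0:ℝ) (0 + 1), F x s with hm
  set W : ℝ → ℝ := fun x => ∫ s in Icc (0:ℝ) (0 + 1), X x s with hW
  have cm : Continuous m := continuous_parametric_integral_of_continuous cF isCompact_Icc
  have cW : Continuous W := continuous_parametric_integral_of_continuous cX isCompact_Icc
  have hmW : ∀ x, 0 ≤ x → m x = ∫ ξ in (0:ℝ)..x, W ξ := by
    intro x hx
    have h1 : ∀ s, F x s - F 0 s = ∫ ξ in (0:ℝ)..x, X ξ s := by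
      intro s
      rw [intervalIntegral.integral_eq_sub_of_hasDerivAt (fun ξ _ => dF ξ s)]
      exact (cX.comp (Continuous.prodMk_left s)).intervalIntegrable _ _
    have h2 : m 0 = 0 := by
      have h3 : m 0 = ∫ s in Icc (0:ℝ) (0 + 1), u 0 ((2 * s - 1) * (1 - δ)) := by
        simp only [hm, hF, hg]
        simp
      rw [h3, h0]
    have h4 : m x = ∫ s in Icc (0:ℝ) (0 + 1), (F x s - F 0 s) := by
      rw [integral_sub (ii (cFs x)) (ii (cFs 0))]
      have : ∫ s in Icc (0:ℝ) (0 + 1), F 0 s = 0 := h2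
      rw [this, sub_zero]
    rw [h4]
    simp only [h1, intervalIntegral.integral_of_le hx]
    rw [integral_integral_swap]
    rw [Measure.prod_restrict]
    have h5 : IntegrableOn (Function.uncurry fun s ξ => X ξ s) (Icc 0 (0 + 1) ×ˢ Icc 0 x)
        (volume.prod volume) :=
      (cX.comp continuous_swap).continuousOn.integrableOn_compact
        (isCompact_Icc.prod isCompact_Icc)
    exact h5.mono_set (prod_mono_right Ioc_subset_Icc_self)
  -- the integral of the square
  have v1 : ∀ x, ∫ s in Icc (0:ℝ) (0 + 1), F x s ^ 2 ≤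
      m x ^ 2 + g x ^ 2 * ∫ s in Icc (0:ℝ) (0 + 1), B x s ^ 2 := by
    intro x
    have hCD : ContDiff ℝ 1 (F x) := by
      rw [contDiff_one_iff_deriv]
      refine ⟨fun s => (dFs x s).differentiableAt, ?_⟩
      have : deriv (F x) = fun s => B x s * (2 * g x) := funext fun s => (dFs x s).deriv
      rw [this]
      exact (cBs x).mul continuous_const
    have h1 := NM.poin1 hCD 0
    have h2 : deriv (F x) = fun s => B x s * (2 * g x) := funext fun s => (dFs x s).deriv
    rw [h2] at h1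
    have h3 : ∫ s in Icc (0:ℝ) (0 + 1), (B x s * (2 * g x)) ^ 2 =
        4 * g x ^ 2 * ∫ s in Icc (0:ℝ) (0 + 1), B x s ^ 2 := by
      rw [← integral_const_mul]
      congr 1
      funext s
      ring
    have h4 : ∫ s in Icc (0:ℝ) (0 + 1), (fun s => B x s * (2 * g x)) s ^ 2 =
        4 * g x ^ 2 * ∫ s in Icc (0:ℝ) (0 + 1), B x s ^ 2 := h3
    rw [h4] at h1
    have h5 : (4:ℝ) ≤ π ^ 2 := by nlinarith [Real.pi_gt_three]
    have h6 : 0 ≤ (∫ s in Icc (0:ℝ) (0 + 1), F x s ^ 2) - m x ^ 2 :=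
      sub_nonneg.2 (NM.sq_integral_le (cFs x) 0)
    have h7 : 4 * ((∫ s in Icc (0:ℝ) (0 + 1), F x s ^ 2) - m x ^ 2) ≤
        4 * g x ^ 2 * ∫ s in Icc (0:ℝ) (0 + 1), B x s ^ 2 :=
      (mul_le_mul_of_nonneg_right h5 h6).trans h1
    linarith
  -- the derivative of the mean
  have v2 : ∀ x, 0 ≤ x → W x ^ 2 ≤ 2 * ∫ s in Icc (0:ℝ) (0 + 1), (A x s ^ 2 + B x s ^ 2) := by
    intro x hx
    have h1 := NM.sq_integral_le (cXs x) 0
    refine h1.trans ?_
    rw [← integral_const_mul]
    refine setIntegral_mono_on (ii ((cXs x).pow 2))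
      (ii ((((cAs x).pow 2).add ((cBs x).pow 2)).const_smul (2:ℝ))) measurableSet_Icc fun s hs => ?_
    have h2 : Real.exp (-x) ≤ 1 := Real.exp_le_one_iff.2 (by linarith)
    have h3 : 0 < Real.exp (-x) := Real.exp_pos _
    have h4 : ((2 * s - 1) * (-Real.exp (-x))) ^ 2 ≤ 1 := by
      have h5 : |(2 * s - 1) * (-Real.exp (-x))| ≤ 1 := by
        rw [abs_mul, abs_neg, abs_of_pos h3]
        have h6 : |2 * s - 1| ≤ 1 := by
          rw [abs_le]
          constructor <;> linarith [hs.1, hs.2]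
        nlinarith [abs_nonneg (2 * s - 1)]
      rw [← sq_abs]
      nlinarith [abs_nonneg ((2 * s - 1) * (-Real.exp (-x)))]
    show X x s ^ 2 ≤ 2 * (A x s ^ 2 + B x s ^ 2)
    simp only [hX]
    set θ := (2 * s - 1) * (-Real.exp (-x))
    nlinarith [sq_nonneg (A x s - B x s * θ), sq_nonneg (B x s), mul_nonneg (sub_nonneg.2 h4) (sq_nonneg (B x s))]
  have ivl : ∀ {G : ℝ → ℝ}, Continuous G → IntervalIntegrable G volume 0 D := fun hG =>
    hG.intervalIntegrable _ _
  have cI1 : Continuous fun x => ∫ s in Icc (0:ℝ) (0 + 1), F x s ^ 2 :=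
    continuous_parametric_integral_of_continuous (f := fun x s => F x s ^ 2)
      (show Continuous fun z : ℝ × ℝ => Function.uncurry F z ^ 2 from cF.pow 2) isCompact_Icc
  have cI2 : Continuous fun x => ∫ s in Icc (0:ℝ) (0 + 1), B x s ^ 2 :=
    continuous_parametric_integral_of_continuous (f := fun x s => B x s ^ 2)
      (show Continuous fun z : ℝ × ℝ => Function.uncurry B z ^ 2 from cB.pow 2) isCompact_Icc
  have cI3 : Continuous fun x => ∫ s in Icc (0:ℝ) (0 + 1), (A x s ^ 2 + B x s ^ 2) :=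
    continuous_parametric_integral_of_continuous (f := fun x s => A x s ^ 2 + B x s ^ 2)
      (show Continuous fun z : ℝ × ℝ => Function.uncurry A z ^ 2 + Function.uncurry B z ^ 2 from
        (cA.pow 2).add (cB.pow 2)) isCompact_Icc
  have hg0 : ∀ x ∈ Icc 0 D, 0 ≤ g x ∧ g x ≤ 1 := by
    intro x hx
    constructor
    · rw [hg]
      simp only
      rw [← hδ, sub_nonneg]
      exact Real.exp_le_exp.2 (by linarith [hx.2])
    · have : Real.exp (-x) ≤ 1 := Real.exp_le_one_iff.2 (by linarith [hx.1])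
      simp only [hg]
      linarith
  have hB2 : ∀ x, 0 ≤ ∫ s in Icc (0:ℝ) (0 + 1), B x s ^ 2 := fun x =>
    integral_nonneg fun s => sq_nonneg _
  have hAB : ∀ x, ∫ s in Icc (0:ℝ) (0 + 1), B x s ^ 2 ≤
      ∫ s in Icc (0:ℝ) (0 + 1), (A x s ^ 2 + B x s ^ 2) := fun x =>
    integral_mono (ii ((cBs x).pow 2)) (ii (((cAs x).pow 2).add ((cBs x).pow 2))) fun s => by
      show B x s ^ 2 ≤ A x s ^ 2 + B x s ^ 2
      nlinarith [sq_nonneg (A x s)]
  -- Hardy
  have hH := hardy hD hδ cW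
  have hH1 : ∫ x in (0:ℝ)..D, g x * m x ^ 2 ≤ 4 * ∫ x in (0:ℝ)..D, g x * W x ^ 2 := by
    refine le_trans (le_of_eq ?_) hH
    refine intervalIntegral.integral_congr fun x hx => ?_
    rw [uIcc_of_le hD] at hx
    simp only [hg]
    rw [hmW x hx.1]
  have hH2 : ∫ x in (0:ℝ)..D, g x * W x ^ 2 ≤
      2 * ∫ x in (0:ℝ)..D, g x * ∫ s in Icc (0:ℝ) (0 + 1), (A x s ^ 2 + B x s ^ 2) := by
    rw [← intervalIntegral.integral_const_mul]
    refine intervalIntegral.integral_mono_on hD (ivl (by fun_prop)) (ivl (by fun_prop))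
      fun x hx => ?_
    have h1 := v2 x hx.1
    have h2 := (hg0 x hx).1
    nlinarith [mul_le_mul_of_nonneg_left h1 h2]
  have hH3 : ∫ x in (0:ℝ)..D, g x * ∫ s in Icc (0:ℝ) (0 + 1), F x s ^ 2 ≤
      (∫ x in (0:ℝ)..D, g x * m x ^ 2) +
        ∫ x in (0:ℝ)..D, g x * ∫ s in Icc (0:ℝ) (0 + 1), (A x s ^ 2 + B x s ^ 2) := by
    rw [← intervalIntegral.integral_add (ivl (by fun_prop)) (ivl (by fun_prop))]
    refine intervalIntegral.integral_mono_on hD (ivl (by fun_prop)) (ivl (by fun_prop))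
      fun x hx => ?_
    obtain ⟨h2, h3⟩ := hg0 x hx
    have h4 : g x ^ 2 * (∫ s in Icc (0:ℝ) (0 + 1), B x s ^ 2) ≤
        ∫ s in Icc (0:ℝ) (0 + 1), (A x s ^ 2 + B x s ^ 2) := by
      refine le_trans ?_ (hAB x)
      have : g x ^ 2 ≤ 1 := by nlinarith
      nlinarith [hB2 x]
    have h5 := (v1 x).trans (add_le_add_right h4 (m x ^ 2))
    have h6 := mul_le_mul_of_nonneg_left h5 h2
    linarith
  have goal : ∫ x in (0:ℝ)..D, g x * ∫ s in Icc (0:ℝ) (0 + 1), F x s ^ 2 ≤
      9 * ∫ x in (0:ℝ)..D, g x * ∫ s in Icc (0:ℝ) (0 + 1), (A x s ^ 2 + B x s ^ 2) := by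
    linarith
  exact goal

end Pool.Agent.R225.NR
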