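import Pool.Agent.R225.NM.Fin
import Pool.Agent.R225.NR.Half

set_option autoImplicit false

/-!
# Lipschitz domains, and a long horn with a spectral gap
-/

namespace Pool.Agent.R225.NR

open MeasureTheory Set WithLp Filter Topology
open scoped Real RealInnerProductSpace
open Pool.Agent.R225.NM

/-- Bounded Lipschitz domains: near each boundary point `p`, in a suitable direction `e`, the
domain is the set above the graph of a Lipschitz function `h` over the hyperplane orthogonal to
`e` (`x - ⟪x, e⟫ e` is the orthogonal projection of `x` to this hyperplane). -/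
structure IsLipschitzDomain {d : ℕ} (Ω : Set (EuclideanSpace ℝ (Fin d))) : Prop where
  isOpen : IsOpen Ω
  isConnected : IsConnected Ω
  isBounded : Bornology.IsBounded Ω
  graph : ∀ p ∈ frontier Ω, ∃ (e : EuclideanSpace ℝ (Fin d))
    (h : EuclideanSpace ℝ (Fin d) → ℝ) (K : NNReal) (r : ℝ), ‖e‖ = 1 ∧ LipschitzWith K h ∧
      0 < r ∧ ∀ x ∈ Metric.ball p r, (x ∈ Ω ↔ h (x - ⟪x, e⟫ • e) < ⟪x, e⟫)

/-- the point with the given coordinates -/
noncomputable def pt (a b : ℝ) : EuclideanSpace ℝ (Fin 2) := toLp 2 ![a, b]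

@[simp] theorem pt_zero (a b : ℝ) : pt a b 0 = a := rfl
@[simp] theorem pt_one (a b : ℝ) : pt a b 1 = b := rfl

theorem inner_pt (x : EuclideanSpace ℝ (Fin 2)) (a b : ℝ) : ⟪x, pt a b⟫ = x 0 * a + x 1 * b := by
  rw [PiLp.inner_apply, Fin.sum_univ_two]
  simp [mul_comm]

theorem norm_pt (a b : ℝ) : ‖pt a b‖ = √(a ^ 2 + b ^ 2) := by
  rw [EuclideanSpace.norm_eq, Fin.sum_univ_two]
  simp [sq_abs]

theorem coord_le (x p : EuclideanSpace ℝ (Fin 2)) (i : Fin 2) : |x i - p i| ≤ dist x p := by
  rw [dist_eq_norm]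
  exact PiLp.norm_apply_le (x - p) i

/-- the horn -/
def Horn (δ : ℝ) : Set (EuclideanSpace ℝ (Fin 2)) := {p | |p 1| + δ < Real.exp (-|p 0|)}

theorem horn_open (δ : ℝ) : IsOpen (Horn δ) := by
  have h0 : Continuous fun p : EuclideanSpace ℝ (Fin 2) => |p 1| + δ := by fun_prop
  have h1 : Continuous fun p : EuclideanSpace ℝ (Fin 2) => Real.exp (-|p 0|) := by fun_prop
  exact isOpen_lt h0 h1

theorem horn_coord {δ D : ℝ} (hδ : Real.exp (-D) = δ) {x y : ℝ}
    (h : |y| + δ < Real.exp (-|x|)) : |x| < D ∧ |y| < 1 := by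
  have hδ0 : 0 < δ := hδ ▸ Real.exp_pos _
  have h1 : δ < Real.exp (-|x|) := lt_of_le_of_lt (by linarith [abs_nonneg y]) h
  rw [← hδ, Real.exp_lt_exp] at h1
  have h2 : Real.exp (-|x|) ≤ 1 := Real.exp_le_one_iff.2 (by linarith [abs_nonneg x])
  exact ⟨by linarith, by linarith⟩

theorem horn_bounded {δ D : ℝ} (hδ : Real.exp (-D) = δ) : Bornology.IsBounded (Horn δ) := by
  refine isBounded_iff_forall_norm_le.2 ⟨√(D ^ 2 + 1 ^ 2), fun p hp => ?_⟩
  obtain ⟨h1, h2⟩ := horn_coord hδ hp
  rw [EuclideanSpace.norm_eq, Fin.sum_univ_two]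
  refine Real.sqrt_le_sqrt (add_le_add ?_ ?_)
  · rw [Real.norm_eq_abs]
    exact pow_le_pow_left₀ (abs_nonneg _) h1.le 2
  · rw [Real.norm_eq_abs]
    exact pow_le_pow_left₀ (abs_nonneg _) h2.le 2

theorem horn_zero {δ : ℝ} (hδ1 : δ < 1) : (0 : EuclideanSpace ℝ (Fin 2)) ∈ Horn δ := by
  simp [Horn, hδ1]

theorem horn_connected {δ : ℝ} (hδ1 : δ < 1) : IsConnected (Horn δ) := by
  have h1 : StarConvex ℝ (0 : EuclideanSpace ℝ (Fin 2)) (Horn δ) := by
    rw [starConvex_zero_iff]
    intro x hx a ha0 ha1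
    have hx' : |x 1| + δ < Real.exp (-|x 0|) := hx
    show |(a • x) 1| + δ < Real.exp (-|(a • x) 0|)
    simp only [PiLp.smul_apply, smul_eq_mul, abs_mul, abs_of_nonneg ha0]
    have h2 : a * |x 1| ≤ |x 1| := mul_le_of_le_one_left (abs_nonneg _) ha1
    have h3 : a * |x 0| ≤ |x 0| := mul_le_of_le_one_left (abs_nonneg _) ha1
    have h4 : Real.exp (-|x 0|) ≤ Real.exp (-(a * |x 0|)) := Real.exp_le_exp.2 (by linarith)
    linarith
  exact (h1.isPathConnected (horn_zero hδ1)).isConnected

theorem exp_lip (a b : ℝ) : |Real.exp (-|a|) - Real.exp (-|b|)| ≤ |a - b| := by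
  have key : ∀ a b : ℝ, |a| ≤ |b| → Real.exp (-|a|) - Real.exp (-|b|) ≤ |a - b| := by
    intro a b hab
    have h1 : Real.exp (-|b|) = Real.exp (-|a|) * Real.exp (-(|b| - |a|)) := by
      rw [← Real.exp_add]; ring_nf
    have h2 : 1 - (|b| - |a|) ≤ Real.exp (-(|b| - |a|)) := by
      linarith [Real.add_one_le_exp (-(|b| - |a|))]
    have h3 : Real.exp (-|a|) ≤ 1 := Real.exp_le_one_iff.2 (by linarith [abs_nonneg a])
    have h4 : 0 < Real.exp (-|a|) := Real.exp_pos _
    have h5 : |b| - |a| ≤ |a - b| := by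
      rw [abs_sub_comm]
      exact abs_sub_abs_le_abs_sub b a
    rw [h1]
    nlinarith
  rcases le_total |a| |b| with h | h
  · rw [abs_of_nonneg]
    · exact key a b h
    · rw [sub_nonneg]
      exact Real.exp_le_exp.2 (by linarith)
  · rw [abs_sub_comm, abs_of_nonneg, abs_sub_comm]
    · exact key b a h
    · rw [sub_nonneg]
      exact Real.exp_le_exp.2 (by linarith)

theorem log_lip {δ : ℝ} (hδ : 0 < δ) (a b : ℝ) :
    |Real.log (|a| + δ) - Real.log (|b| + δ)| ≤ 1 / δ * |a - b| := by
  have key : ∀ a b : ℝ, Real.log (|a| + δ) - Real.log (|b| + δ) ≤ 1 / δ * |a - b| := by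
    intro a b
    have ha : 0 < |a| + δ := by positivity
    have hb : 0 < |b| + δ := by positivity
    rw [← Real.log_div ha.ne' hb.ne']
    refine (Real.log_le_sub_one_of_pos (by positivity)).trans ?_
    have h1 : (|a| + δ) / (|b| + δ) - 1 = (|a| - |b|) / (|b| + δ) := by
      field_simp
      ring
    rw [h1, div_le_iff₀ hb]
    have h2 : |a| - |b| ≤ |a - b| := abs_sub_abs_le_abs_sub a b
    have h3 : 1 / δ * |a - b| * (|b| + δ) = |a - b| + 1 / δ * |a - b| * |b| := by
      field_simp
      ring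
    rw [h3]
    have : 0 ≤ 1 / δ * |a - b| * |b| := by positivity
    linarith
  rw [abs_le]
  constructor
  · have := key b a
    rw [abs_sub_comm b a] at this
    linarith
  · exact key a b

/-- the sign -/
noncomputable def sg (a : ℝ) : ℝ := if 0 ≤ a then 1 else -1

theorem sg_sq (a : ℝ) : sg a * sg a = 1 := by
  unfold sg
  split_ifs <;> norm_num

theorem sg_abs {a b : ℝ} (h : |b - a| < |a|) : |b| = sg a * b := by
  unfold sg
  rw [abs_lt] at h
  split_ifs with h1
  · rw [abs_of_nonneg h1] at h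
    rw [one_mul, abs_of_pos (by linarith)]
  · push Not at h1
    rw [abs_of_neg h1] at h
    rw [abs_of_neg (by linarith)]
    ring

theorem horn_domain {δ D : ℝ} (hδ : Real.exp (-D) = δ) (hδ1 : δ < 1) :
    IsLipschitzDomain (Horn δ) := by
  have hδ0 : 0 < δ := hδ ▸ Real.exp_pos _
  refine ⟨horn_open δ, horn_connected hδ1, horn_bounded hδ, fun p hp => ?_⟩
  have hpn : p ∉ Horn δ := by
    rw [(horn_open δ).frontier_eq] at hp
    exact hp.2
  by_cases hp1 : p 1 = 0
  · have hp0 : p 0 ≠ 0 := by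
      intro hp0
      refine hpn ?_
      have : p = 0 := by
        ext i
        fin_cases i
        · exact hp0
        · exact hp1
      rw [this]
      exact horn_zero hδ1
    refine ⟨pt (-sg (p 0)) 0, fun w => Real.log (|w 1| + δ), Real.toNNReal (1 / δ), |p 0|,
      ?_, ?_, abs_pos.2 hp0, fun x hx => ?_⟩
    · rw [norm_pt]
      have := sg_sq (p 0)
      rw [show (-sg (p 0)) ^ 2 + 0 ^ 2 = 1 by nlinarith]
      simp
    · refine LipschitzWith.of_dist_le_mul fun w w' => ?_
      rw [Real.dist_eq, Real.coe_toNNReal _ (by positivity)]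
      refine (log_lip hδ0 _ _).trans ?_
      exact mul_le_mul_of_nonneg_left (coord_le w w' 1) (by positivity)
    · have h1 : |x 0 - p 0| < |p 0| := (coord_le x p 0).trans_lt hx
      have h2 := sg_abs h1
      rw [inner_pt]
      have e1 : (x - (x 0 * -sg (p 0) + x 1 * 0) • pt (-sg (p 0)) 0) 1 = x 1 := by
        simp
      beta_reduce
      rw [e1, Real.log_lt_iff_lt_exp (by positivity)]
      show |x 1| + δ < Real.exp (-|x 0|) ↔ _
      rw [h2]
      have e2 : x 0 * -sg (p 0) + x 1 * 0 = -(sg (p 0) * x 0) := by ring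
      rw [e2]
  · refine ⟨pt 0 (-sg (p 1)), fun w => δ - Real.exp (-|w 0|), 1, |p 1|,
      ?_, ?_, abs_pos.2 hp1, fun x hx => ?_⟩
    · rw [norm_pt]
      have := sg_sq (p 1)
      rw [show (0:ℝ) ^ 2 + (-sg (p 1)) ^ 2 = 1 by nlinarith]
      simp
    · refine LipschitzWith.of_dist_le_mul fun w w' => ?_
      rw [Real.dist_eq, NNReal.coe_one, one_mul]
      have e1 : δ - Real.exp (-|w 0|) - (δ - Real.exp (-|w' 0|)) =
        -(Real.exp (-|w 0|) - Real.exp (-|w' 0|)) := by ring
      rw [e1, abs_neg]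
      exact (exp_lip _ _).trans (coord_le w w' 0)
    · have h1 : |x 1 - p 1| < |p 1| := (coord_le x p 1).trans_lt hx
      have h2 := sg_abs h1
      rw [inner_pt]
      have e1 : (x - (x 0 * 0 + x 1 * -sg (p 1)) • pt 0 (-sg (p 1))) 0 = x 0 := by
        simp
      beta_reduce
      rw [e1]
      show |x 1| + δ < Real.exp (-|x 0|) ↔ _
      rw [h2]
      constructor <;> intro h <;> linarith

/-- the open rectangle `(-a, a) × (-b, b)` -/
def Rect (a b : ℝ) : Set (EuclideanSpace ℝ (Fin 2)) := {p | |p 0| < a ∧ |p 1| < b}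

theorem rect_open (a b : ℝ) : IsOpen (Rect a b) := by
  have h0 : Continuous fun p : EuclideanSpace ℝ (Fin 2) => |p 0| := by fun_prop
  have h1 : Continuous fun p : EuclideanSpace ℝ (Fin 2) => |p 1| := by fun_prop
  exact (isOpen_lt h0 continuous_const).inter (isOpen_lt h1 continuous_const)

theorem rect_convex (a b : ℝ) : Convex ℝ (Rect a b) := by
  have e : Rect a b = (fun p : EuclideanSpace ℝ (Fin 2) => p 0) ⁻¹' Ioo (-a) a ∩
      (fun p : EuclideanSpace ℝ (Fin 2) => p 1) ⁻¹' Ioo (-b) b := by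
    ext p
    simp [Rect, abs_lt]
  intro x hx y hy s t hs ht hst
  rw [e] at hx hy ⊢
  exact ⟨by simpa using convex_Ioo (-a) a hx.1 hy.1 hs ht hst,
    by simpa using convex_Ioo (-b) b hx.2 hy.2 hs ht hst⟩

theorem rect_bounded (a b : ℝ) : Bornology.IsBounded (Rect a b) := by
  refine isBounded_iff_forall_norm_le.2 ⟨√(a ^ 2 + b ^ 2), fun p hp => ?_⟩
  rw [EuclideanSpace.norm_eq, Fin.sum_univ_two]
  refine Real.sqrt_le_sqrt (add_le_add ?_ ?_)
  · rw [Real.norm_eq_abs]
    exact pow_le_pow_left₀ (abs_nonneg _) hp.1.le 2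
  · rw [Real.norm_eq_abs]
    exact pow_le_pow_left₀ (abs_nonneg _) hp.2.le 2

theorem rect_zero {a b : ℝ} (ha : 0 < a) (hb : 0 < b) :
    (0 : EuclideanSpace ℝ (Fin 2)) ∈ Rect a b := by
  simp [Rect, ha, hb]

theorem rect_convexDomain {a b : ℝ} (ha : 0 < a) (hb : 0 < b) : IsConvexDomain (Rect a b) :=
  ⟨rect_open a b, rect_convex a b, rect_bounded a b, ⟨0, rect_zero ha hb⟩⟩

theorem rect_domain {a b : ℝ} (ha : 0 < a) (hb : 0 < b) : IsLipschitzDomain (Rect a b) := by
  refine ⟨rect_open a b, ⟨⟨0, rect_zero ha hb⟩, (rect_convex a b).isPreconnected⟩,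
    rect_bounded a b, fun p hp => ?_⟩
  rw [(rect_open a b).frontier_eq] at hp
  have hcl : |p 0| ≤ a ∧ |p 1| ≤ b := by
    have h0 : Continuous fun p : EuclideanSpace ℝ (Fin 2) => |p 0| := by fun_prop
    have h1 : Continuous fun p : EuclideanSpace ℝ (Fin 2) => |p 1| := by fun_prop
    have hc : IsClosed {p : EuclideanSpace ℝ (Fin 2) | |p 0| ≤ a ∧ |p 1| ≤ b} :=
      (isClosed_le h0 continuous_const).inter (isClosed_le h1 continuous_const)
    have hsub : Rect a b ⊆ {p : EuclideanSpace ℝ (Fin 2) | |p 0| ≤ a ∧ |p 1| ≤ b} :=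
      fun p hp => ⟨hp.1.le, hp.2.le⟩
    exact closure_minimal hsub hc hp.1
  have hsq : ∀ c, (-sg c) ^ 2 = 1 := fun c => by nlinarith [sg_sq c]
  by_cases h0 : |p 0| < a
  · -- a horizontal side
    have h1 : |p 1| = b := le_antisymm hcl.2 (not_lt.1 fun h => hp.2 ⟨h0, h⟩)
    refine ⟨pt 0 (-sg (p 1)), fun _ => -b, 0, min (a - |p 0|) b, ?_, LipschitzWith.const _,
      lt_min (by linarith) hb, fun x hx => ?_⟩
    · rw [norm_pt, hsq]
      simp
    · rw [Metric.mem_ball, lt_min_iff] at hx
      have h2 : |x 1| = sg (p 1) * x 1 := sg_abs (by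
        rw [h1]; exact (coord_le x p 1).trans_lt hx.2)
      have h3 : |x 0| < a := by
        have h4 : |x 0 - p 0| < a - |p 0| := (coord_le x p 0).trans_lt hx.1
        have h5 := abs_sub_abs_le_abs_sub (x 0) (p 0)
        linarith
      rw [inner_pt]
      show (|x 0| < a ∧ |x 1| < b) ↔ -b < x 0 * 0 + x 1 * -sg (p 1)
      rw [h2]
      constructor
      · rintro ⟨_, h⟩; linarith
      · intro h; exact ⟨h3, by linarith⟩
  · have h0' : |p 0| = a := le_antisymm hcl.1 (not_lt.1 h0)
    by_cases h1 : |p 1| < b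
    · -- a vertical side
      refine ⟨pt (-sg (p 0)) 0, fun _ => -a, 0, min (b - |p 1|) a, ?_, LipschitzWith.const _,
        lt_min (by linarith) ha, fun x hx => ?_⟩
      · rw [norm_pt, hsq]
        simp
      · rw [Metric.mem_ball, lt_min_iff] at hx
        have h2 : |x 0| = sg (p 0) * x 0 := sg_abs (by
          rw [h0']; exact (coord_le x p 0).trans_lt hx.2)
        have h3 : |x 1| < b := by
          have h4 : |x 1 - p 1| < b - |p 1| := (coord_le x p 1).trans_lt hx.1
          have h5 := abs_sub_abs_le_abs_sub (x 1) (p 1)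
          linarith
        rw [inner_pt]
        show (|x 0| < a ∧ |x 1| < b) ↔ -a < x 0 * -sg (p 0) + x 1 * 0
        rw [h2]
        constructor
        · rintro ⟨h, _⟩; linarith
        · intro h; exact ⟨by linarith, h3⟩
    · -- a corner
      have h1' : |p 1| = b := le_antisymm hcl.2 (not_lt.1 h1)
      have h22 : √2 * √2 = 2 := Real.mul_self_sqrt (by norm_num)
      have h20 : 0 < √2 := by positivity
      set σ := sg (p 0) with hσ
      set τ := sg (p 1) with hτ
      have hσσ : σ * σ = 1 := sg_sq _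
      have hττ : τ * τ = 1 := sg_sq _
      have hL : ∀ w w' : EuclideanSpace ℝ (Fin 2),
          |(σ * w 0 - τ * w 1) / √2 - (σ * w' 0 - τ * w' 1) / √2| ≤ dist w w' := by
        intro w w'
        have e1 : (σ * w 0 - τ * w 1) / √2 - (σ * w' 0 - τ * w' 1) / √2 =
            ⟪w - w', pt (σ / √2) (-τ / √2)⟫ := by
          rw [inner_pt]
          simp only [PiLp.sub_apply]
          ring
        have e2 : ‖pt (σ / √2) (-τ / √2)‖ = 1 := by
          rw [norm_pt]
          have : (σ / √2) ^ 2 + (-τ / √2) ^ 2 = (σ * σ + τ * τ) / (√2 * √2) := by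
            field_simp
          rw [this, hσσ, hττ, h22]
          norm_num
        rw [e1, dist_eq_norm]
        have := abs_real_inner_le_norm (w - w') (pt (σ / √2) (-τ / √2))
        rwa [e2, mul_one] at this
      refine ⟨pt (-σ / √2) (-τ / √2),
        fun w => max ((σ * w 0 - τ * w 1) / √2 - √2 * a) (-((σ * w 0 - τ * w 1) / √2) - √2 * b),
        1, min a b, ?_, ?_, lt_min ha hb, fun x hx => ?_⟩
      · rw [norm_pt]
        have : (-σ / √2) ^ 2 + (-τ / √2) ^ 2 = (σ * σ + τ * τ) / (√2 * √2) := by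
          field_simp
        rw [this, hσσ, hττ, h22]
        norm_num
      · refine LipschitzWith.of_dist_le_mul fun w w' => ?_
        rw [Real.dist_eq, NNReal.coe_one, one_mul]
        refine (abs_max_sub_max_le_max _ _ _ _).trans (max_le ?_ ?_)
        · have := hL w w'
          rwa [sub_sub_sub_cancel_right]
        · have := hL w w'
          rw [sub_sub_sub_cancel_right, neg_sub_neg, abs_sub_comm]
          exact this
      · rw [Metric.mem_ball, lt_min_iff] at hx
        have h2 : |x 0| = σ * x 0 := sg_abs (by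
          rw [h0']; exact (coord_le x p 0).trans_lt hx.1)
        have h3 : |x 1| = τ * x 1 := sg_abs (by
          rw [h1']; exact (coord_le x p 1).trans_lt hx.2)
        rw [inner_pt]
        set I := x 0 * (-σ / √2) + x 1 * (-τ / √2) with hI
        have e0 : (x - I • pt (-σ / √2) (-τ / √2)) 0 = x 0 - I * (-σ / √2) := by simp
        have e1 : (x - I • pt (-σ / √2) (-τ / √2)) 1 = x 1 - I * (-τ / √2) := by simp
        beta_reduce
        rw [e0, e1]
        have e2 : (σ * (x 0 - I * (-σ / √2)) - τ * (x 1 - I * (-τ / √2))) / √2 =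
            (σ * x 0 - τ * x 1) / √2 := by
          congr 1
          have : σ * (x 0 - I * (-σ / √2)) - τ * (x 1 - I * (-τ / √2)) =
            σ * x 0 - τ * x 1 + I / √2 * (σ * σ - τ * τ) := by ring
          rw [this, hσσ, hττ]
          ring
        rw [e2]
        have e3 : I = -((σ * x 0 + τ * x 1) / √2) := by
          rw [hI]; ring
        rw [e3, max_lt_iff]
        show (|x 0| < a ∧ |x 1| < b) ↔ _
        rw [h2, h3]
        have k1 : (σ * x 0 - τ * x 1) / √2 - √2 * a < -((σ * x 0 + τ * x 1) / √2) ↔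
            σ * x 0 < a := by
          have : (σ * x 0 - τ * x 1) / √2 - √2 * a + (σ * x 0 + τ * x 1) / √2 =
              √2 * (σ * x 0 - a) := by
            field_simp
            rw [show √2 ^ 2 = 2 from Real.sq_sqrt (by norm_num)]
            ring
          constructor
          · intro h
            have h5 : √2 * (σ * x 0 - a) < 0 := by linarith
            nlinarith
          · intro h
            have h5 : √2 * (σ * x 0 - a) < 0 := mul_neg_of_pos_of_neg h20 (by linarith)
            linarith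
        have k2 : -((σ * x 0 - τ * x 1) / √2) - √2 * b < -((σ * x 0 + τ * x 1) / √2) ↔
            τ * x 1 < b := by
          have : -((σ * x 0 - τ * x 1) / √2) - √2 * b + (σ * x 0 + τ * x 1) / √2 =
              √2 * (τ * x 1 - b) := by
            field_simp
            rw [show √2 ^ 2 = 2 from Real.sq_sqrt (by norm_num)]
            ring
          constructor
          · intro h
            have h5 : √2 * (τ * x 1 - b) < 0 := by linarith
            nlinarith
          · intro h
            have h5 : √2 * (τ * x 1 - b) < 0 := mul_neg_of_pos_of_neg h20 (by linarith)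
            linarith
        rw [k1, k2]

end Pool.Agent.R225.NR
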